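import Pool.Agent.Work.MP_223b32_es.Interface

/-! # CNT3 (helper90) -/

set_option autoImplicit false

namespace Pool.Agent.Work.ES.CNT3

open Finset Polynomial

section basics

variable {F K : Type} [Field F] [Fintype F] [Field K] [Fintype K] [Algebra F K]

lemma pow_mod3 (q n : ℕ) (hq : q % 6 = 1) : q ^ n % 6 = 1 := by
  induction n with
  | zero => rfl
  | succ n ih => rw [pow_succ, Nat.mul_mod, ih, hq]

lemma three_mul_div {m : ℕ} (hm : m % 6 = 1) : 3 * ((m - 1) / 3) = m - 1 := by omega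

lemma root_cube {ω : K} (hω : ω ^ 2 + ω + 1 = 0) : ω ^ 3 = 1 := by
  have : ω ^ 3 - 1 = (ω - 1) * (ω ^ 2 + ω + 1) := by ring
  rw [hω, mul_zero] at this
  exact sub_eq_zero.mp this

/-- `ω ^ m = ω` if `m = 1` mod `3` -/
lemma root_pow {ω : K} (hω : ω ^ 2 + ω + 1 = 0) {m : ℕ} (hm : m % 6 = 1) : ω ^ m = ω := by
  have h3 := root_cube hω
  obtain ⟨t, rfl⟩ : ∃ t, m = 3 * t + 1 := ⟨(m - 1) / 3, by omega⟩
  rw [pow_succ, pow_mul, h3, one_pow, one_mul]

/-- `A_(n+u) = κ A_u` -/
lemma Aw_add (hq : Fintype.card F % 6 = 1) {ω w : K} (hω : ω ^ 2 + ω + 1 = 0)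
    (hw : w ^ ((Fintype.card K - 1) / 3) = ω) (u : ℕ) :
    Aw F w (Module.finrank F K + u) = ω * Aw F w u := by
  have hK : Fintype.card K = Fintype.card F ^ Module.finrank F K :=
    Module.card_eq_pow_finrank (K := F) (V := K)
  have h1 := pow_mod3 (Fintype.card F) (Module.finrank F K) hq
  have h2 := pow_mod3 (Fintype.card F) u hq
  have h3 := pow_mod3 (Fintype.card F) (Module.finrank F K + u) hq
  have key : (Fintype.card F ^ (Module.finrank F K + u) - 1) / 3 =
      (Fintype.card K - 1) / 3 * Fintype.card F ^ u + (Fintype.card F ^ u - 1) / 3 := by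
    rw [hK]
    obtain ⟨a, ha⟩ : ∃ a, Fintype.card F ^ Module.finrank F K = 3 * a + 1 :=
      ⟨(Fintype.card F ^ Module.finrank F K - 1) / 3, by omega⟩
    obtain ⟨b, hb⟩ : ∃ b, Fintype.card F ^ u = 3 * b + 1 :=
      ⟨(Fintype.card F ^ u - 1) / 3, by omega⟩
    rw [pow_add, ha, hb]
    have e1 : (3 * a + 1) * (3 * b + 1) - 1 = 3 * (a * (3 * b + 1) + b) := by
      have : (3 * a + 1) * (3 * b + 1) = 3 * (a * (3 * b + 1) + b) + 1 := by ring
      rw [this]; simp
    rw [e1, Nat.mul_div_cancel_left _ (by norm_num)]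
    have e2 : (3 * a + 1 - 1) / 3 = a := by omega
    have e3 : (3 * b + 1 - 1) / 3 = b := by omega
    rw [e2, e3]
  unfold Aw
  rw [key, pow_add, pow_mul, hw, root_pow hω h2]

lemma iter_pow (q : ℕ) (w : K) (j : ℕ) : (fun x : K => x ^ q)^[j] w = w ^ q ^ j := by
  induction j with
  | zero => simp
  | succ j ih =>
    rw [Function.iterate_succ_apply', ih, ← pow_mul, pow_succ]

/-- elements of proper subfields are cubes -/
lemma cube_of_fixed (hq : Fintype.card F % 6 = 1) {k : ℕ} (hfin : Module.finrank F K = 3 ^ k)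
    {w : K} (hw0 : w ≠ 0) {u : ℕ} (h1 : 1 ≤ u) (hu : u < 3 ^ k)
    (h : w ^ Fintype.card F ^ u = w) : w ^ ((Fintype.card K - 1) / 3) = 1 := by
  have hK : Fintype.card K = Fintype.card F ^ Module.finrank F K :=
    Module.card_eq_pow_finrank (K := F) (V := K)
  have hk : 1 ≤ k := by
    by_contra hk
    have : k = 0 := by omega
    subst this
    simp at hu
    omega
  obtain ⟨l, rfl⟩ : ∃ l, k = l + 1 := ⟨k - 1, by omega⟩
  have e1 : Function.IsPeriodicPt (fun x : K => x ^ Fintype.card F) u w := by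
    unfold Function.IsPeriodicPt Function.IsFixedPt
    rw [iter_pow, h]
  have e2 : Function.IsPeriodicPt (fun x : K => x ^ Fintype.card F) (3 ^ (l + 1)) w := by
    unfold Function.IsPeriodicPt Function.IsFixedPt
    rw [iter_pow, ← hfin, ← hK]
    exact FiniteField.pow_card w
  have e3 := e1.gcd e2
  have hg : u.gcd (3 ^ (l + 1)) ∣ 3 ^ l := by
    have hd : u.gcd (3 ^ (l + 1)) ∣ 3 ^ (l + 1) := Nat.gcd_dvd_right _ _
    obtain ⟨i, hi, hie⟩ := (Nat.dvd_prime_pow Nat.prime_three).mp hd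
    rw [hie]
    apply pow_dvd_pow
    by_contra hcon
    have : i = l + 1 := by omega
    subst this
    have : 3 ^ (l + 1) ≤ u := by
      rw [← hie]
      exact Nat.gcd_le_left _ h1
    omega
  have e4 : Function.IsPeriodicPt (fun x : K => x ^ Fintype.card F) (3 ^ l) w :=
    e3.trans_dvd hg
  have e5 : w ^ Fintype.card F ^ 3 ^ l = w := by
    unfold Function.IsPeriodicPt Function.IsFixedPt at e4
    rw [iter_pow] at e4
    exact e4
  have hQ := pow_mod3 (Fintype.card F) (3 ^ l) hq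
  set Q := Fintype.card F ^ 3 ^ l with hQdef
  have e6 : w ^ (Q - 1) = 1 := by
    have : w ^ (Q - 1) * w = 1 * w := by
      rw [← pow_succ, one_mul, Nat.sub_add_cancel (by omega)]
      exact e5
    exact mul_right_cancel₀ hw0 this
  have e7 : (Fintype.card K - 1) / 3 = (Q - 1) * ((Q ^ 2 + Q + 1) / 3) := by
    rw [hK, hfin]
    have : Fintype.card F ^ 3 ^ (l + 1) = Q ^ 3 := by
      rw [hQdef, ← pow_mul, pow_succ]
    rw [this]
    obtain ⟨b, hb⟩ : ∃ b, Q = 3 * b + 1 := ⟨(Q - 1) / 3, by omega⟩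
    rw [hb]
    have e8 : (3 * b + 1) ^ 2 + (3 * b + 1) + 1 = 3 * (3 * b ^ 2 + 3 * b + 1) := by ring
    have e9 : (3 * b + 1) ^ 3 - 1 = 3 * ((3 * b) * (3 * b ^ 2 + 3 * b + 1)) := by
      have : (3 * b + 1) ^ 3 = 3 * ((3 * b) * (3 * b ^ 2 + 3 * b + 1)) + 1 := by ring
      rw [this]; simp
    rw [e8, e9, Nat.mul_div_cancel_left _ (by norm_num), Nat.mul_div_cancel_left _ (by norm_num)]
    simp
  rw [e7, pow_mul, e6, one_pow]

lemma Aw_cube_ne (hq : Fintype.card F % 6 = 1) {k : ℕ} (hfin : Module.finrank F K = 3 ^ k)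
    {w : K} (hw : NC w) {u : ℕ} (h1 : 1 ≤ u) (hu : u < 3 ^ k) : Aw F w u ^ 3 ≠ 1 := by
  intro h
  apply hw.2
  apply cube_of_fixed hq hfin hw.1 h1 hu
  have h2 := pow_mod3 (Fintype.card F) u hq
  unfold Aw at h
  rw [← pow_mul, mul_comm, three_mul_div h2] at h
  have : w ^ (Fintype.card F ^ u - 1) * w = w := by rw [h, one_mul]
  rw [← pow_succ, Nat.sub_add_cancel (by omega)] at this
  exact this

lemma gg_ne {ω A : K} (hω : ω ^ 2 + ω + 1 = 0) (hA : A ^ 3 ≠ 1) (ε : Bool) :
    (gg ω ε).eval A ≠ 0 := by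
  have h3 := root_cube hω
  intro h
  apply hA
  cases ε with
  | false =>
    simp only [gg, Bool.false_eq_true, if_false, eval_add, eval_one, eval_X, eval_pow] at h
    have : A ^ 3 - 1 = (A - 1) * (1 + A + A ^ 2) := by ring
    rw [h, mul_zero] at this
    exact sub_eq_zero.mp this
  | true =>
    simp only [gg, if_true, eval_add, eval_one, eval_X, eval_pow, eval_mul, eval_C] at h
    have : (ω * A) ^ 3 - 1 = (ω * A - 1) * (1 + ω * A + ω ^ 2 * A ^ 2) := by ring
    rw [h, mul_zero, mul_pow, h3, one_mul] at this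
    exact sub_eq_zero.mp this

end basics

section count

variable {F K : Type} [Field F] [Fintype F] [Field K] [Fintype K] [DecidableEq K] [Algebra F K]

/-- the class of `ω` -/
noncomputable def CC (K : Type) [Field K] [Fintype K] [DecidableEq K] (ω : K) : Finset K :=
  univ.filter (fun w : K => w ^ ((Fintype.card K - 1) / 3) = ω)

/-- the elements of the class with vanishing bits -/
noncomputable def BB (F : Type) {K : Type} [Field F] [Fintype F] [Field K] [Fintype K]
    [DecidableEq K] (ω : K) (T : Finset ℕ) : Finset K :=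
  (CC K ω).filter fun w => ∀ u ∈ T, ∀ ε : Bool,
    quadraticChar K ((gg ω ε).eval (Aw F w u)) = 1

lemma class_bound (hCHS : Stmt_CHS3) (hq : Fintype.card F % 6 = 1) {ω : K}
    (hω : ω ^ 2 + ω + 1 = 0) {U : ℕ} (hU : 2500 * Fintype.card F ^ (2 * U) ≤ Fintype.card K)
    (T : Finset ℕ) (hT : ∀ u ∈ T, 1 ≤ u ∧ u ≤ U) :
    ((BB F ω T).card : ℝ) ≤ ((CC K ω).card : ℝ) / 4 ^ T.card +
      14 * (Fintype.card F : ℝ) ^ U * √(Fintype.card K) := by
  classical
  set χ : ℕ × Bool → K → ℝ := fun p w =>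
    ((quadraticChar K ((gg ω p.2).eval (Aw F w p.1)) : ℤ) : ℝ) with hχ
  set TT : Finset (ℕ × Bool) := T ×ˢ (univ : Finset Bool) with hTT
  have hcard : TT.card = 2 * T.card := by
    rw [hTT, card_product, card_univ, Fintype.card_bool, mul_comm]
  set E : ℝ := 14 * (Fintype.card F : ℝ) ^ U * √(Fintype.card K) with hE
  have hE0 : 0 ≤ E := by positivity
  have hval : ∀ p w, -1 ≤ χ p w := by
    intro p w
    simp only [hχ]
    by_cases h0 : (gg ω p.2).eval (Aw F w p.1) = 0
    · rw [h0, quadraticChar_zero]; norm_num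
    · rcases quadraticChar_dichotomy h0 with h | h <;> rw [h] <;> norm_num
  -- lower bound for the sum
  have h1 : (4 : ℝ) ^ T.card * (BB F ω T).card ≤ ∑ w ∈ CC K ω, ∏ p ∈ TT, (1 + χ p w) := by
    have h2 : (4 : ℝ) ^ T.card * (BB F ω T).card = ∑ w ∈ BB F ω T, ∏ p ∈ TT, (1 + χ p w) := by
      have : ∀ w ∈ BB F ω T, ∏ p ∈ TT, (1 + χ p w) = 4 ^ T.card := by
        intro w hw
        have h3 : ∀ p ∈ TT, 1 + χ p w = 2 := by
          intro p hp
          rw [hTT, mem_product] at hp
          have h4 := (mem_filter.mp hw).2 p.1 hp.1 p.2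
          simp only [hχ, h4]
          norm_num
        rw [prod_congr rfl h3, prod_const, hcard, pow_mul]
        norm_num
      rw [sum_congr rfl this, sum_const, nsmul_eq_mul, mul_comm]
    rw [h2]
    apply sum_le_sum_of_subset_of_nonneg
    · exact filter_subset _ _
    · intro w _ _
      apply prod_nonneg
      intro p _
      linarith [hval p w]
  -- expansion
  have h5 : ∑ w ∈ CC K ω, ∏ p ∈ TT, (1 + χ p w) =
      ∑ S ∈ TT.powerset, ∑ w ∈ CC K ω, ∏ p ∈ S, χ p w := by
    rw [sum_comm]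
    refine sum_congr rfl fun w _ => ?_
    rw [prod_one_add]
  have h6 : ∀ S ∈ TT.powerset, S ≠ ∅ → ∑ w ∈ CC K ω, ∏ p ∈ S, χ p w ≤ E := by
    intro S hS hne
    have hS' : ∀ p ∈ S, 1 ≤ p.1 ∧ p.1 ≤ U := by
      intro p hp
      have := mem_powerset.mp hS hp
      rw [hTT, mem_product] at this
      exact hT _ this.1
    have h7 := hCHS F K hq ω hω U hU S (nonempty_iff_ne_empty.mpr hne) hS'
    have h8 : ((∑ w ∈ univ.filter (fun w : K => w ^ ((Fintype.card K - 1) / 3) = ω),
          ∏ p ∈ S, quadraticChar K ((gg ω p.2).eval (Aw F w p.1)) : ℤ) : ℝ) =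
        ∑ w ∈ CC K ω, ∏ p ∈ S, χ p w := by
      simp only [hχ, CC]
      push_cast
      rfl
    rw [h8] at h7
    exact (le_abs_self _).trans h7
  have h9 : ∑ S ∈ TT.powerset, ∑ w ∈ CC K ω, ∏ p ∈ S, χ p w ≤
      (CC K ω).card + 4 ^ T.card * E := by
    rw [← add_sum_erase _ _ (empty_mem_powerset TT)]
    have h10 : ∑ w ∈ CC K ω, ∏ p ∈ (∅ : Finset (ℕ × Bool)), χ p w = (CC K ω).card := by
      simp
    rw [h10]
    apply add_le_add le_rfl
    calc ∑ S ∈ TT.powerset.erase ∅, ∑ w ∈ CC K ω, ∏ p ∈ S, χ p w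
        ≤ ∑ S ∈ TT.powerset.erase ∅, E := by
          refine sum_le_sum fun S hS => ?_
          rw [mem_erase] at hS
          exact h6 S hS.2 hS.1
      _ = ((TT.powerset.erase ∅).card : ℝ) * E := by rw [sum_const, nsmul_eq_mul]
      _ ≤ 4 ^ T.card * E := by
          apply mul_le_mul_of_nonneg_right _ hE0
          have h11 : (TT.powerset.erase ∅).card ≤ TT.powerset.card := card_le_card (erase_subset _ _)
          rw [card_powerset, hcard, pow_mul] at h11
          calc ((TT.powerset.erase ∅).card : ℝ) ≤ (((2 ^ 2) ^ T.card : ℕ) : ℝ) := by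
                exact_mod_cast h11
            _ = 4 ^ T.card := by norm_num
  have h12 : (4 : ℝ) ^ T.card * (BB F ω T).card ≤ (CC K ω).card + 4 ^ T.card * E :=
    h1.trans (h5 ▸ h9)
  have h4pos : (0 : ℝ) < 4 ^ T.card := by positivity
  rw [← sub_nonneg]
  have h13 : ((CC K ω).card : ℝ) / 4 ^ T.card + E - (BB F ω T).card =
      ((CC K ω).card + 4 ^ T.card * E - 4 ^ T.card * (BB F ω T).card) / 4 ^ T.card := by
    field_simp
  rw [h13]
  apply div_nonneg _ h4pos.le
  linarith

lemma sq_root {ω : K} (hω : ω ^ 2 + ω + 1 = 0) : (ω ^ 2) ^ 2 + ω ^ 2 + 1 = 0 := by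
  have h3 := root_cube hω
  have : (ω ^ 2) ^ 2 = ω ^ 3 * ω := by ring
  rw [this, h3, one_mul]
  linear_combination hω

lemma mem_BB (hq : Fintype.card F % 6 = 1) {k : ℕ} (hfin : Module.finrank F K = 3 ^ k) {ω w : K}
    (hω : ω ^ 2 + ω + 1 = 0) {U : ℕ} (hU : U < 3 ^ k) (T : Finset ℕ)
    (hT : ∀ u ∈ T, 1 ≤ u ∧ u ≤ U) (hw : NC w) (hκ : w ^ ((Fintype.card K - 1) / 3) = ω)
    (hps : ∀ u ∈ T, ps F w u = 0 ∧ ps F w (Module.finrank F K + u) = 0) : w ∈ BB F ω T := by
  unfold BB CC
  rw [mem_filter, mem_filter]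
  refine ⟨⟨mem_univ _, hκ⟩, ?_⟩
  intro u hu ε
  have hA := Aw_cube_ne hq hfin hw (hT u hu).1 (lt_of_le_of_lt (hT u hu).2 hU)
  have hne := gg_ne hω hA ε
  rcases quadraticChar_dichotomy hne with h | h
  · exact h
  · exfalso
    cases ε with
    | false =>
      have h1 := (hps u hu).1
      unfold ps at h1
      have e : (gg ω false).eval (Aw F w u) = 1 + Aw F w u + Aw F w u ^ 2 := by
        simp [gg]
      rw [e] at h
      rw [if_pos h] at h1
      exact one_ne_zero h1
    | true =>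
      have h1 := (hps u hu).2
      unfold ps at h1
      have e : (gg ω true).eval (Aw F w u) = 1 + Aw F w (Module.finrank F K + u) +
          Aw F w (Module.finrank F K + u) ^ 2 := by
        rw [Aw_add hq hω hκ]
        simp [gg]
        ring
      rw [e] at h
      rw [if_pos h] at h1
      exact one_ne_zero h1

end count

end Pool.Agent.Work.ES.CNT3

namespace Pool.Agent.Work.ES

open Finset Polynomial Module CNT3

theorem stmt_CNT3 (hCHS : Stmt_CHS3) (hNCC : Stmt_NCC) : Stmt_CNT3 := by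
  classical
  intro F K _ _ _ _ _ _ hq k hfin U hU T hT
  have hK : Fintype.card K = Fintype.card F ^ Module.finrank F K :=
    Module.card_eq_pow_finrank (K := F) (V := K)
  have hK6 : Fintype.card K % 6 = 1 := by rw [hK]; exact pow_mod3 _ _ hq
  have hq1 : 1 < Fintype.card F := Fintype.one_lt_card
  have hU' : U < 3 ^ k := by
    have h1 : Fintype.card F ^ (2 * U) < Fintype.card F ^ 3 ^ k := by
      rw [hK, hfin] at hU
      have : 0 < Fintype.card F ^ (2 * U) := Nat.pow_pos (by omega)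
      omega
    have := (Nat.pow_lt_pow_iff_right hq1).mp h1
    omega
  set A : Set K := {w : K | NC w ∧
    ∀ u ∈ T, ps F w u = 0 ∧ ps F w (Module.finrank F K + u) = 0} with hA
  have hAcard : (Nat.card {w : K // NC w ∧
      ∀ u ∈ T, ps F w u = 0 ∧ ps F w (Module.finrank F K + u) = 0}) = A.ncard := rfl
  rw [hAcard]
  have hRHS : (0 : ℝ) ≤ 28 * (Fintype.card F : ℝ) ^ U * √(Fintype.card K) := by positivity
  by_cases hne : A.Nonempty
  · obtain ⟨w0, hw0, -⟩ := hne
    set ω := w0 ^ ((Fintype.card K - 1) / 3) with hωdef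
    have hcube : ∀ w : K, w ≠ 0 → (w ^ ((Fintype.card K - 1) / 3)) ^ 3 = 1 := by
      intro w hw
      rw [← pow_mul, mul_comm, three_mul_div hK6]
      exact FiniteField.pow_card_sub_one_eq_one w hw
    have hω : ω ^ 2 + ω + 1 = 0 := by
      have h1 := hcube w0 hw0.1
      have h2 : (ω - 1) * (ω ^ 2 + ω + 1) = 0 := by
        have : (ω - 1) * (ω ^ 2 + ω + 1) = ω ^ 3 - 1 := by ring
        rw [this, h1, sub_self]
      rcases mul_eq_zero.mp h2 with h | h
      · exact absurd (sub_eq_zero.mp h) hw0.2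
      · exact h
    have hω2 := sq_root hω
    have hωne1 : ω ≠ 1 := hw0.2
    have hω2ne1 : ω ^ 2 ≠ 1 := by
      intro h
      have h3 := root_cube hω
      have : ω ^ 3 = ω ^ 2 * ω := by ring
      rw [this, h, one_mul] at h3
      exact hωne1 h3
    have hne12 : ω ≠ ω ^ 2 := by
      intro h
      have hω0 : ω ≠ 0 := by
        intro h0
        rw [h0] at hω
        simp at hω
      have : ω * 1 = ω * ω := by rw [mul_one, ← pow_two]; exact h
      exact hωne1 (mul_left_cancel₀ hω0 this).symm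
    have hsub : A ⊆ ((BB F ω T ∪ BB F (ω ^ 2) T : Finset K) : Set K) := by
      intro w hw
      have h1 := hcube w hw.1.1
      set κ := w ^ ((Fintype.card K - 1) / 3) with hκ
      have h2 : (κ - 1) * ((κ - ω) * (κ - ω ^ 2)) = 0 := by
        have h3 := root_cube hω
        have : (κ - 1) * ((κ - ω) * (κ - ω ^ 2)) =
            κ ^ 3 - 1 - (ω ^ 2 + ω + 1) * κ ^ 2 + (ω ^ 2 + ω + 1) * κ * ω ^ 0
              + (ω ^ 3 - 1) * κ - (ω ^ 3 - 1) := by ring
        rw [this, h1, hω, h3]
        ring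
      rw [coe_union]
      rcases mul_eq_zero.mp h2 with h | h
      · exact absurd (sub_eq_zero.mp h) hw.1.2
      · rcases mul_eq_zero.mp h with h | h
        · left
          exact mem_BB hq hfin hω hU' T hT hw.1 (sub_eq_zero.mp h) hw.2
        · right
          exact mem_BB hq hfin hω2 hU' T hT hw.1 (sub_eq_zero.mp h) hw.2
    have hle : A.ncard ≤ (BB F ω T).card + (BB F (ω ^ 2) T).card := by
      calc A.ncard ≤ ((BB F ω T ∪ BB F (ω ^ 2) T : Finset K) : Set K).ncard :=
            Set.ncard_le_ncard hsub (Finset.finite_toSet _)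
        _ = (BB F ω T ∪ BB F (ω ^ 2) T).card := Set.ncard_coe_finset _
        _ ≤ _ := card_union_le _ _
    have hb1 := class_bound hCHS hq hω hU T hT
    have hb2 := class_bound hCHS hq hω2 hU T hT
    -- the classes
    have hexp : 0 < (Fintype.card K - 1) / 3 := by
      have : 1 < Fintype.card K := Fintype.one_lt_card
      omega
    have hCNC : ∀ ω' : K, ω' ^ 2 + ω' + 1 = 0 → ω' ≠ 1 → ∀ w ∈ CC K ω', NC w := by
      intro ω' h1 h2 w hw
      have hw' : w ^ ((Fintype.card K - 1) / 3) = ω' := (mem_filter.mp hw).2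
      refine ⟨?_, by rw [hw']; exact h2⟩
      intro h0
      rw [h0, zero_pow hexp.ne'] at hw'
      rw [← hw'] at h1
      simp at h1
    have hdisj : Disjoint (CC K ω) (CC K (ω ^ 2)) := by
      rw [Finset.disjoint_left]
      intro w h1 h2
      have e1 : w ^ ((Fintype.card K - 1) / 3) = ω := (mem_filter.mp h1).2
      have e2 : w ^ ((Fintype.card K - 1) / 3) = ω ^ 2 := (mem_filter.mp h2).2
      exact hne12 (e1.symm.trans e2)
    have hcc : (CC K ω).card + (CC K (ω ^ 2)).card ≤ Nat.card {w : K // NC w} := by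
      rw [← card_union_of_disjoint hdisj]
      have e : Nat.card {w : K // NC w} = {w : K | NC w}.ncard := rfl
      rw [e, ← Set.ncard_coe_finset]
      apply Set.ncard_le_ncard _ (Set.toFinite _)
      intro w hw
      rw [coe_union] at hw
      rcases hw with hw | hw
      · exact hCNC ω hω hωne1 w hw
      · exact hCNC (ω ^ 2) hω2 hω2ne1 w hw
    have hncc := hNCC K (by omega)
    have hccR : ((CC K ω).card : ℝ) + (CC K (ω ^ 2)).card ≤ 2 / 3 * Fintype.card K := by
      have h1 : 3 * ((CC K ω).card + (CC K (ω ^ 2)).card) ≤ 2 * Fintype.card K := by omega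
      have h2 : (3 : ℝ) * ((CC K ω).card + (CC K (ω ^ 2)).card) ≤ 2 * Fintype.card K := by
        exact_mod_cast h1
      linarith
    have h4pos : (0 : ℝ) < 4 ^ T.card := by positivity
    calc (A.ncard : ℝ) ≤ (BB F ω T).card + (BB F (ω ^ 2) T).card := by exact_mod_cast hle
      _ ≤ (((CC K ω).card : ℝ) / 4 ^ T.card + 14 * (Fintype.card F : ℝ) ^ U * √(Fintype.card K)) +
          (((CC K (ω ^ 2)).card : ℝ) / 4 ^ T.card +
            14 * (Fintype.card F : ℝ) ^ U * √(Fintype.card K)) := add_le_add hb1 hb2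
      _ = (((CC K ω).card : ℝ) + (CC K (ω ^ 2)).card) / 4 ^ T.card +
          28 * (Fintype.card F : ℝ) ^ U * √(Fintype.card K) := by ring
      _ ≤ _ := by
        apply add_le_add _ le_rfl
        exact div_le_div_of_nonneg_right hccR h4pos.le
  · rw [Set.not_nonempty_iff_eq_empty] at hne
    rw [hne, Set.ncard_empty]
    push_cast
    positivity

end Pool.Agent.Work.ES
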