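import Pool.Agent.Work.MP_223b32_es.Interface

/-!
# Block EX3 of MP_223b32

The eigenvalues of the surface `w ^ 2 = D(t) (x ^ 3 - t)`.
-/

set_option autoImplicit false

namespace Pool.Agent.Work.ES.EX3

open Finset Polynomial Module Pool.Agent.Work.MP_223b32_ag Pool.Agent.Work.TC

/-! ### Characters -/

section Char

variable {F : Type} [Field F] [Fintype F]

theorem ringChar_ne (hq : Fintype.card F % 6 = 1) : ringChar F ≠ 2 := by
  intro h
  have := FiniteField.even_card_of_char_two h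
  omega

variable [DecidableEq F]

theorem qc_apply (x : F) : qc F x = (quadraticChar F x : ℂ) := rfl

theorem qc_quad : (qc F).IsQuadratic :=
  MulChar.IsQuadratic.comp (quadraticChar_isQuadratic F) _

theorem qc_sq : qc F * qc F = 1 := by
  rw [← sq]; exact qc_quad.sq_eq_one

theorem qc_inv : (qc F)⁻¹ = qc F := qc_quad.inv

omit [Fintype F] [DecidableEq F] in
theorem tau_neg_one {τ : MulChar F ℂ} (h3 : τ ^ 3 = 1) : τ (-1) = 1 :=
  MulChar.val_neg_one_eq_one_of_odd_order (by decide) h3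

theorem psi_ne_one {τ : MulChar F ℂ} (h1 : τ ≠ 1) (h3 : τ ^ 3 = 1) : qc F * τ ≠ 1 := by
  intro h
  have h2 : τ ^ 2 = 1 := by
    calc τ ^ 2 = (qc F * qc F) * τ ^ 2 := by rw [qc_sq, one_mul]
      _ = (qc F * τ) ^ 2 := by rw [mul_pow, sq (qc F)]
      _ = 1 := by rw [h, one_pow]
  apply h1
  calc τ = τ ^ 2 * τ := by rw [h2, one_mul]
    _ = τ ^ 3 := (pow_succ τ 2).symm
    _ = 1 := h3

theorem qc_psi (τ : MulChar F ℂ) : qc F * (qc F * τ) = τ := by
  rw [← mul_assoc, qc_sq, one_mul]

theorem psi_inv (τ : MulChar F ℂ) : (qc F * τ)⁻¹ = qc F * τ⁻¹ := by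
  rw [mul_inv, qc_inv]

omit [Fintype F] [DecidableEq F] in
theorem inv_cube {τ : MulChar F ℂ} (h3 : τ ^ 3 = 1) : (τ⁻¹) ^ 3 = 1 := by
  rw [inv_pow, h3, inv_one]

theorem sign_one {τ : MulChar F ℂ} (h3 : τ ^ 3 = 1) :
    (quadraticChar F (-1) : ℂ) * (qc F * τ) (-1) = 1 := by
  rw [MulChar.mul_apply, tau_neg_one h3, mul_one, qc_apply]
  have h : quadraticChar F (-1) ^ 2 = 1 := quadraticChar_sq_one (neg_ne_zero.mpr one_ne_zero)
  rw [← sq]
  exact_mod_cast h

/-- The value of a multiplicative character is integral. -/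
theorem isIntegral_char (χ : MulChar F ℂ) (x : F) : IsIntegral ℤ (χ x) := by
  by_cases hx : x = 0
  · rw [hx, MulChar.map_zero]; exact isIntegral_zero
  · have h1 : χ x ^ (Fintype.card F - 1) = 1 := by
      rw [← map_pow, FiniteField.pow_card_sub_one_eq_one x hx, map_one]
    refine IsIntegral.of_pow (n := Fintype.card F - 1) ?_ (by rw [h1]; exact isIntegral_one)
    have := Fintype.one_lt_card (α := F)
    omega

end Char

/-! ### The coefficients -/

section Coef

variable {F K : Type} [Field F] [Fintype F] [Field K] [Fintype K] [DecidableEq K] [Algebra F K]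

theorem isIntegral_msum (ψ : MulChar F ℂ) (a : K) (m : ℕ) : IsIntegral ℤ (msumC (XX ψ a) m) := by
  classical
  unfold msumC
  refine IsIntegral.sum _ fun c _ => ?_
  show IsIntegral ℤ ((quadraticChar K (aeval a (mon m c)) : ℂ) * ψ ((mon m c).coeff 0))
  refine IsIntegral.mul ?_ (isIntegral_char ψ _)
  exact isIntegral_algebraMap (R := ℤ) (A := ℂ)

theorem msum_zero (ψ : MulChar F ℂ) (a : K) : msumC (XX ψ a) 0 = 1 := by
  unfold msumC
  rw [Fintype.sum_unique]
  have : mon 0 (default : Fin 0 → F) = 1 := by simp [mon]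
  rw [this, map_one]

/-- Roots of a monic polynomial with integral coefficients. -/
theorem isIntegral_root {n : ℕ} {β : Fin n → ℂ} {b : ℕ → ℂ} (hb : ∀ m, IsIntegral ℤ (b m))
    (h : ∏ i, (X - C (β i)) = ∑ m ∈ range (n + 1), C (b m) * X ^ (n - m)) (i : Fin n) :
    IsIntegral ℤ (β i) := by
  have hA : IsIntegral (integralClosure ℤ ℂ) (β i) := by
    set P : (integralClosure ℤ ℂ)[X] :=
      ∑ m ∈ range (n + 1), C (⟨b m, hb m⟩ : integralClosure ℤ ℂ) * X ^ (n - m) with hP
    have hmap : P.map (algebraMap (integralClosure ℤ ℂ) ℂ) = ∏ i, (X - C (β i)) := by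
      rw [h, hP, Polynomial.map_sum]
      refine Finset.sum_congr rfl fun m _ => ?_
      rw [Polynomial.map_mul, Polynomial.map_C, Polynomial.map_pow, Polynomial.map_X]
      rfl
    refine ⟨P, ?_, ?_⟩
    · refine Polynomial.monic_of_injective
        (FaithfulSMul.algebraMap_injective (integralClosure ℤ ℂ) ℂ) ?_
      rw [hmap]
      exact monic_prod_of_monic _ _ fun i _ => monic_X_sub_C _
    · rw [← Polynomial.eval_map, hmap, Polynomial.eval_prod]
      exact Finset.prod_eq_zero (Finset.mem_univ i) (by simp)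
  exact isIntegral_trans _ hA

theorem root_eval {n : ℕ} {β : Fin n → ℂ} {b : ℕ → ℂ}
    (h : ∏ i, (X - C (β i)) = ∑ m ∈ range (n + 1), C (b m) * X ^ (n - m)) (z : ℂ) :
    (∃ i, z = β i) ↔ ∑ m ∈ range (n + 1), b m * z ^ (n - m) = 0 := by
  have h1 := congrArg (Polynomial.eval z) h
  rw [Polynomial.eval_prod, Polynomial.eval_finsetSum] at h1
  simp only [eval_sub, eval_X, eval_C, eval_mul, eval_pow] at h1
  rw [← h1, Finset.prod_eq_zero_iff]
  constructor
  · rintro ⟨i, hi⟩
    exact ⟨i, Finset.mem_univ i, by rw [hi, sub_self]⟩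
  · rintro ⟨i, -, hi⟩
    exact ⟨i, sub_eq_zero.mp hi⟩

/-- The pairing of the roots. -/
theorem pairs {n : ℕ} {β γ : Fin n → ℂ} {b c : ℕ → ℂ} {q : ℂ} (hq : q ≠ 0) (hb0 : b 0 = 1)
    (h1 : ∏ i, (X - C (β i)) = ∑ m ∈ range (n + 1), C (b m) * X ^ (n - m))
    (h2 : ∏ i, (X - C (γ i)) = ∑ m ∈ range (n + 1), C (c m) * X ^ (n - m))
    (hfe : ∀ i j : ℕ, i + j = n → b (i + j) * c j = q ^ j * b i) (i : Fin n) :
    ∃ j, β i * γ j = q := by
  have hbn : b n ≠ 0 := by
    intro h0
    have h := hfe 0 n (by omega)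
    rw [zero_add, h0, zero_mul, hb0, mul_one] at h
    exact pow_ne_zero n hq h.symm
  have hP := (root_eval h1 (β i)).mp ⟨i, rfl⟩
  have hβ : β i ≠ 0 := by
    intro h0
    rw [h0, Finset.sum_eq_single n] at hP
    · apply hbn
      simpa using hP
    · intro m hm hmn
      have : n - m ≠ 0 := by
        have := Finset.mem_range.mp hm
        omega
      rw [zero_pow this, mul_zero]
    · intro hn
      exact absurd (Finset.self_mem_range_succ n) hn
  have hQ : ∑ m ∈ range (n + 1), c m * (q / β i) ^ (n - m) = 0 := by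
    have h3 : b n * β i ^ n * ∑ m ∈ range (n + 1), c m * (q / β i) ^ (n - m) =
        q ^ n * ∑ m ∈ range (n + 1), b m * β i ^ (n - m) := by
      rw [← Finset.sum_range_reflect (fun m => b m * β i ^ (n - m)), Finset.mul_sum,
        Finset.mul_sum]
      refine Finset.sum_congr rfl fun m hm => ?_
      have hm' : m ≤ n := Nat.lt_succ_iff.mp (Finset.mem_range.mp hm)
      have h4 := hfe (n - m) m (by omega)
      rw [show n - m + m = n by omega] at h4
      rw [show n + 1 - 1 - m = n - m by omega, show n - (n - m) = m by omega, div_pow]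
      have h5 : β i ^ n = β i ^ (n - m) * β i ^ m := by rw [← pow_add]; congr 1; omega
      have h6 : q ^ n = q ^ (n - m) * q ^ m := by rw [← pow_add]; congr 1; omega
      have h7 : β i ^ (n - m) ≠ 0 := pow_ne_zero _ hβ
      rw [h5, h6]
      field_simp
      exact h4
    rw [hP, mul_zero] at h3
    rcases mul_eq_zero.mp h3 with h | h
    · exact absurd h (mul_ne_zero hbn (pow_ne_zero _ hβ))
    · exact h
  obtain ⟨j, hj⟩ := (root_eval h2 (q / β i)).mpr hQ
  exact ⟨j, by rw [← hj]; field_simp⟩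

end Coef

/-! ### The character sums -/

section Sums

variable {F E : Type} [Field F] [Fintype F] [DecidableEq F] [Field E] [Fintype E] [DecidableEq E]
  [Algebra F E]

/-- The quadratic character of an extension. -/
theorem char_norm (hF : ringChar F ≠ 2) (y : E) :
    quadraticChar E y = quadraticChar F (Algebra.norm F y) := by
  have hE : ringChar E ≠ 2 := by
    rwa [← Algebra.ringChar_eq F E]
  have hqF : Fintype.card F % 2 = 1 := FiniteField.odd_card_of_char_ne_two hF
  have hqE : Fintype.card E % 2 = 1 := FiniteField.odd_card_of_char_ne_two hE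
  have hF1 : 1 < Fintype.card F := Fintype.one_lt_card
  have hcard : Fintype.card E = Fintype.card F ^ Module.finrank F E := Module.card_eq_pow_finrank
  have hdvd : Fintype.card F - 1 ∣ Fintype.card E - 1 := by
    rw [hcard]; simpa using Nat.sub_dvd_pow_sub_pow (Fintype.card F) 1 (Module.finrank F E)
  have key : ((quadraticChar E y : ℤ) : E) = ((quadraticChar F (Algebra.norm F y) : ℤ) : E) := by
    rw [quadraticChar_eq_pow_of_char_ne_two' hE]
    have h1 : ((quadraticChar F (Algebra.norm F y) : ℤ) : E) =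
        algebraMap F E ((quadraticChar F (Algebra.norm F y) : ℤ) : F) := by simp
    rw [h1, quadraticChar_eq_pow_of_char_ne_two' hF, map_pow, FiniteField.algebraMap_norm_eq_pow,
      ← pow_mul, Nat.card_eq_fintype_card, Nat.card_eq_fintype_card]
    congr 1
    obtain ⟨c, hc⟩ := hdvd
    have h2 : Fintype.card E - 1 = (Fintype.card F - 1) * c := hc
    have h3 : (Fintype.card E - 1) / (Fintype.card F - 1) = c := by
      rw [hc]; exact Nat.mul_div_cancel_left _ (by omega)
    rw [h3]
    obtain ⟨m, hm⟩ : ∃ m, Fintype.card F = 2 * m + 1 := ⟨Fintype.card F / 2, by omega⟩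
    have h4 : Fintype.card F / 2 = m := by omega
    rw [h4]
    have h5 : Fintype.card F - 1 = 2 * m := by omega
    rw [h5] at h2
    have h6 : 1 ≤ Fintype.card E := Fintype.card_pos
    have h7 : Fintype.card E = 2 * (c * m) + 1 := by
      have : 2 * m * c = 2 * (c * m) := by ring
      omega
    omega
  have hinj : ∀ u v : ℤ, (u = 0 ∨ u = 1 ∨ u = -1) → (v = 0 ∨ v = 1 ∨ v = -1) →
      ((u : ℤ) : E) = (v : E) → u = v := by
    have h2 : (2 : E) ≠ 0 := Ring.two_ne_zero hE
    have h1 : (1 : E) ≠ -1 := Ring.neg_one_ne_one_of_char_ne_two hE |>.symm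
    rintro u v (rfl | rfl | rfl) (rfl | rfl | rfl) h <;>
      first
      | rfl
      | (exfalso; simp at h; done)
      | (exfalso; exact h1 (by simpa using h))
      | (exfalso; exact h1 (by simpa using h.symm))
  have hval : ∀ (G : Type) [Field G] [Fintype G] [DecidableEq G] (z : G),
      quadraticChar G z = 0 ∨ quadraticChar G z = 1 ∨ quadraticChar G z = -1 := by
    intro G _ _ _ z
    by_cases hz : z = 0
    · left; simp [hz]
    · right
      exact quadraticChar_dichotomy hz
  exact hinj _ _ (hval E y) (hval F _) key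

omit [Fintype F] [DecidableEq F] [DecidableEq E] in
/-- The sum of a nontrivial character composed with the norm. -/
theorem sum_norm_eq_zero {ψ : MulChar F ℂ} (h : ψ ≠ 1) : ∑ u : E, ψ (Algebra.norm F u) = 0 := by
  obtain ⟨w, hw⟩ := MulChar.ne_one_iff.mp h
  obtain ⟨e, he⟩ := FiniteField.norm_surjective F E (w : F)
  have he0 : e ≠ 0 := by
    rintro rfl
    rw [Algebra.norm_zero] at he
    exact w.ne_zero he.symm
  have h1 : ∑ u : E, ψ (Algebra.norm F u) = ψ w * ∑ u : E, ψ (Algebra.norm F u) := by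
    conv_lhs => rw [← Equiv.sum_comp (Equiv.mulLeft₀ e he0)]
    rw [Finset.mul_sum]
    refine Finset.sum_congr rfl fun u _ => ?_
    show ψ (Algebra.norm F (e * u)) = _
    rw [map_mul, map_mul, he]
  have h2 : (ψ w - 1) * ∑ u : E, ψ (Algebra.norm F u) = 0 := by
    rw [sub_mul, one_mul, ← h1, sub_self]
  exact (mul_eq_zero.mp h2).resolve_left (sub_ne_zero.mpr hw)

/-- The inner sum. -/
theorem inner (hF : ringChar F ≠ 2) {τ : MulChar F ℂ} (h1 : qc F * τ ≠ 1) (t : E) :
    ∑ u : E, (quadraticChar E (u - t) : ℂ) * τ (Algebra.norm F u) =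
      (qc F * τ) (Algebra.norm F t) *
        ∑ v : E, (quadraticChar E (v - 1) : ℂ) * τ (Algebra.norm F v) := by
  by_cases ht : t = 0
  · rw [ht, Algebra.norm_zero, MulChar.map_zero, zero_mul]
    rw [← sum_norm_eq_zero (E := E) h1]
    refine Finset.sum_congr rfl fun u _ => ?_
    rw [sub_zero, MulChar.mul_apply, qc_apply, char_norm hF]
  · conv_lhs => rw [← Equiv.sum_comp (Equiv.mulLeft₀ t ht)]
    rw [Finset.mul_sum]
    refine Finset.sum_congr rfl fun v _ => ?_
    show (quadraticChar E (t * v - t) : ℂ) * τ (Algebra.norm F (t * v)) = _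
    rw [MulChar.mul_apply, qc_apply, ← char_norm hF t,
      show t * v - t = t * (v - 1) by ring, map_mul, map_mul, map_mul]
    push_cast
    ring

/-- The sum over `x` of `χ(x ^ 3 - t)`. -/
theorem cubes (hCUBC : Stmt_CUBC) (hq : Fintype.card F % 6 = 1) {τ : MulChar F ℂ} (h1 : τ ≠ 1)
    (h3 : τ ^ 3 = 1) (t : E) :
    ∑ x : E, (quadraticChar E (x ^ 3 - t) : ℂ) =
      (qc F * τ) (Algebra.norm F t) *
          ∑ v : E, (quadraticChar E (v - 1) : ℂ) * τ (Algebra.norm F v) +
        (qc F * τ⁻¹) (Algebra.norm F t) *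
          ∑ v : E, (quadraticChar E (v - 1) : ℂ) * τ⁻¹ (Algebra.norm F v) := by
  have hF := ringChar_ne hq
  have hE : ringChar E ≠ 2 := by
    rwa [← Algebra.ringChar_eq F E]
  have hz : ∑ u : E, (quadraticChar E (u - t) : ℂ) = 0 := by
    have h := Equiv.sum_comp (Equiv.subRight t) (fun u : E => (quadraticChar E u : ℂ))
    simp only [Equiv.subRight_apply] at h
    rw [h]
    exact_mod_cast quadraticChar_sum_zero hE
  rw [← Finset.sum_fiberwise univ (fun x : E => x ^ 3)]
  have h4 : ∀ u : E, ∑ x ∈ univ.filter (fun x : E => x ^ 3 = u), (quadraticChar E (x ^ 3 - t) : ℂ) =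
      (quadraticChar E (u - t) : ℂ) +
        ((quadraticChar E (u - t) : ℂ) * τ (Algebra.norm F u) +
          (quadraticChar E (u - t) : ℂ) * τ⁻¹ (Algebra.norm F u)) := by
    intro u
    have h5 : ∑ x ∈ univ.filter (fun x : E => x ^ 3 = u), (quadraticChar E (x ^ 3 - t) : ℂ) =
        ∑ x ∈ univ.filter (fun x : E => x ^ 3 = u), (quadraticChar E (u - t) : ℂ) := by
      refine Finset.sum_congr rfl fun x hx => ?_
      rw [(Finset.mem_filter.mp hx).2]
    rw [h5, Finset.sum_const, nsmul_eq_mul, hCUBC F E hq τ h1 h3 u]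
    ring
  rw [Finset.sum_congr rfl fun u _ => h4 u, Finset.sum_add_distrib, Finset.sum_add_distrib, hz,
    zero_add, inner hF (psi_ne_one h1 h3), inner hF (psi_ne_one (inv_ne_one.mpr h1) (inv_cube h3))]

end Sums

/-! ### The Jacobi sums -/

section Jac

variable {F : Type} [Field F] [Fintype F] [DecidableEq F]

omit [Fintype F] [DecidableEq F] in
theorem minpoly_one_natDegree : (minpoly F (1 : F)).natDegree = Module.finrank F F := by
  rw [minpoly.one, Module.finrank_self, ← C_1, natDegree_X_sub_C]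

theorem jac (hFROBC : Stmt_FROBC) (hq : Fintype.card F % 6 = 1) {τ : MulChar F ℂ} (h1 : τ ≠ 1)
    (h3 : τ ^ 3 = 1) (E : Type) [Field E] [Fintype E] [DecidableEq E] [Algebra F E] :
    ∑ v : E, (quadraticChar E (v - 1) : ℂ) * τ (Algebra.norm F v) =
      - jj τ ^ Module.finrank F E := by
  obtain ⟨β, hβ, hE⟩ := hFROBC F F (ringChar_ne hq) (by rw [Module.finrank_self]; exact odd_one) 1
    one_ne_zero minpoly_one_natDegree τ h1 1 (Module.finrank_self F).symm
  have h4 := hE E
  rw [Fin.sum_univ_one, minpoly.one] at h4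
  have h5 : β 0 = - msumC (XX τ (1 : F)) 1 := by
    have h6 := congrArg (Polynomial.eval 0) hβ
    rw [Fin.prod_univ_one, Finset.sum_range_succ, Finset.sum_range_one] at h6
    simp at h6
    rw [← h6, neg_neg]
  have h7 : ∀ v : E, aeval v (X - 1 : F[X]) = v - 1 := by
    intro v
    simp
  simp only [h7] at h4
  rw [h4, tau_neg_one h3, h5, jj]
  congr 2
  ring

theorem jj_mul (hFEC : Stmt_FEC) (hq : Fintype.card F % 6 = 1) {τ : MulChar F ℂ} (h1 : τ ≠ 1)
    (h3 : τ ^ 3 = 1) : jj τ * jj τ⁻¹ = (Fintype.card F : ℂ) := by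
  have h := hFEC F F (ringChar_ne hq) (by rw [Module.finrank_self]; exact odd_one) 1
    one_ne_zero minpoly_one_natDegree τ h1 (psi_ne_one h1 h3) 0 1
    (by rw [Module.finrank_self])
  rw [zero_add, msum_zero, mul_one, pow_one] at h
  have h2 : (quadraticChar F (-1) : ℂ) ^ 2 = 1 := by
    have h : quadraticChar F (-1) ^ 2 = 1 := quadraticChar_sq_one (neg_ne_zero.mpr one_ne_zero)
    exact_mod_cast h
  unfold jj
  calc _ = (quadraticChar F (-1) : ℂ) ^ 2 *
        (msumC (XX τ (1 : F)) 1 * msumC (XX τ⁻¹ (1 : F)) 1) := by ring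
    _ = _ := by rw [h2, h, one_mul]

theorem isIntegral_jj (τ : MulChar F ℂ) : IsIntegral ℤ (jj τ) := by
  unfold jj
  refine IsIntegral.mul (IsIntegral.neg ?_) (isIntegral_msum τ (1 : F) 1)
  exact isIntegral_algebraMap (R := ℤ) (A := ℂ)

end Jac

end Pool.Agent.Work.ES.EX3

namespace Pool.Agent.Work.ES

open Finset Polynomial Module Pool.Agent.Work.MP_223b32_ag Pool.Agent.Work.TC
open Pool.Agent.Work.ES.EX3

theorem stmt_EX3 (hFROBC : Stmt_FROBC) (hCUBC : Stmt_CUBC) (hFEC : Stmt_FEC) : Stmt_EX3 := by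
  intro F K _ _ _ _ _ _ _ hq hodd a ha hdeg τ h1 h3 n hn
  have hF := ringChar_ne hq
  have h1' : τ⁻¹ ≠ 1 := inv_ne_one.mpr h1
  have h3' : (τ⁻¹) ^ 3 = 1 := inv_cube h3
  have hψ := psi_ne_one h1 h3
  have hψ' := psi_ne_one h1' h3'
  have hq0 : (Fintype.card F : ℂ) ≠ 0 := Nat.cast_ne_zero.mpr Fintype.card_ne_zero
  obtain ⟨β, hβ, hβE⟩ := hFROBC F K hF hodd a ha hdeg _ hψ n hn
  obtain ⟨γ, hγ, hγE⟩ := hFROBC F K hF hodd a ha hdeg _ hψ' n hn
  have hfe : ∀ i j : ℕ, i + j = n → msumC (XX (qc F * τ) a) (i + j) *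
      msumC (XX (qc F * τ⁻¹) a) j = (Fintype.card F : ℂ) ^ j * msumC (XX (qc F * τ) a) i := by
    intro i j hij
    have h := hFEC F K hF hodd a ha hdeg _ hψ (by rw [qc_psi]; exact h1) i j (hij.trans hn)
    rwa [psi_inv] at h
  have hfe' : ∀ i j : ℕ, i + j = n → msumC (XX (qc F * τ⁻¹) a) (i + j) *
      msumC (XX (qc F * τ) a) j = (Fintype.card F : ℂ) ^ j * msumC (XX (qc F * τ⁻¹) a) i := by
    intro i j hij
    have h := hFEC F K hF hodd a ha hdeg _ hψ' (by rw [qc_psi]; exact h1') i j (hij.trans hn)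
    rwa [psi_inv, inv_inv] at h
  refine ⟨β, γ, hβ, hγ, ?_, pairs hq0 (msum_zero _ _) hβ hγ hfe, ?_, jj_mul hFEC hq h1 h3, ?_, ?_⟩
  · intro E _ _ _ _
    have hA := hβE E
    have hB := hγE E
    simp only [sign_one h3, sign_one h3', one_mul] at hA hB
    unfold NN
    rw [Finset.sum_comm]
    push_cast
    have h5 : ∀ t : E, ∑ x : E, (quadraticChar E (aeval t (minpoly F a) *
        (aeval x (X ^ 3 : F[X]) - t)) : ℂ) =
        (quadraticChar E (aeval t (minpoly F a)) : ℂ) * (qc F * τ) (Algebra.norm F t) *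
          (- jj τ ^ Module.finrank F E) +
        (quadraticChar E (aeval t (minpoly F a)) : ℂ) * (qc F * τ⁻¹) (Algebra.norm F t) *
          (- jj τ⁻¹ ^ Module.finrank F E) := by
      intro t
      have h6 : ∀ x : E, (quadraticChar E (aeval t (minpoly F a) *
          (aeval x (X ^ 3 : F[X]) - t)) : ℂ) = (quadraticChar E (aeval t (minpoly F a)) : ℂ) *
            (quadraticChar E (x ^ 3 - t) : ℂ) := by
        intro x
        rw [map_mul, map_pow, aeval_X]
        push_cast
        rfl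
      rw [Finset.sum_congr rfl fun x _ => h6 x, ← Finset.mul_sum, cubes hCUBC hq h1 h3 t,
        jac hFROBC hq h1 h3 E, jac hFROBC hq h1' h3' E]
      ring
    rw [Finset.sum_congr rfl fun t _ => h5 t, Finset.sum_add_distrib, ← Finset.sum_mul,
      ← Finset.sum_mul, hA, hB]
    simp only [mul_pow, ← Finset.mul_sum]
    ring
  · intro j
    obtain ⟨i, hi⟩ := pairs hq0 (msum_zero _ _) hγ hβ hfe' j
    exact ⟨i, by rw [mul_comm]; exact hi⟩
  · intro i
    exact (isIntegral_jj τ).mul (isIntegral_root (fun m => isIntegral_msum _ a m) hβ i)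
  · intro i
    exact (isIntegral_jj τ⁻¹).mul (isIntegral_root (fun m => isIntegral_msum _ a m) hγ i)

end Pool.Agent.Work.ES
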